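import Pool.Agent.Helper2.EL.Defs
import Pool.Agent.Helper2.CF.Defs
import Pool.Agent.Helper88.UN.LA

/-!
MP_b8862a_ag, project EL, block EL-3: an irreducible Lie algebra of matrices contains the scalar matrices
`tr X • 1` for all of its elements `X`.
-/

open Matrix

attribute [local instance 100] LieRing.ofAssociativeRing

namespace MH

variable {n : Type*} [Fintype n] [DecidableEq n]

/-- A Lie algebra with nondegenerate Killing form is perfect. -/
private lemma perfect_of_killing {L : Type*} [LieRing L] [LieAlgebra ℂ L] [FiniteDimensional ℂ L]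
    [LieAlgebra.IsKilling ℂ L] (D : Submodule ℂ L) (hD : ∀ x y : L, ⁅x, y⁆ ∈ D) : D = ⊤ := by
  by_contra hne
  obtain ⟨f, hf0, hf⟩ := Submodule.exists_le_ker_of_lt_top D (lt_top_iff_ne_top.mpr hne)
  have hnd : (killingForm ℂ L).Nondegenerate := LieAlgebra.IsKilling.killingForm_nondegenerate ℂ L
  let e := LinearMap.BilinForm.toDual (killingForm ℂ L) hnd
  obtain ⟨z, hz⟩ := e.surjective f
  have hz' : ∀ x, killingForm ℂ L z x = f x := by
    intro x
    rw [← hz]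
    rfl
  have h1 : ∀ x : L, ⁅z, x⁆ = 0 := by
    intro x
    apply hnd.1
    intro y
    rw [LieModule.traceForm_apply_lie_apply]
    rw [hz']
    exact hf (hD x y)
  have h2 : z ∈ LieAlgebra.center ℂ L := by
    rw [LieModule.mem_maxTrivSubmodule]
    intro x
    rw [← lie_skew, h1, neg_zero]
  rw [LieAlgebra.center_eq_bot] at h2
  have h3 : z = 0 := by simpa using h2
  apply hf0
  rw [← hz, h3, map_zero]

theorem scalar_mem (L : Submodule ℂ (Matrix n n ℂ)) (hbr : ∀ X ∈ L, ∀ Y ∈ L, X * Y - Y * X ∈ L)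
    (hirr : ∀ W : Submodule ℂ (n → ℂ), (∀ X ∈ L, ∀ w ∈ W, X *ᵥ w ∈ W) → W = ⊥ ∨ W = ⊤)
    {X : Matrix n n ℂ} (hX : X ∈ L) : X.trace • (1 : Matrix n n ℂ) ∈ L := by
  classical
  cases isEmpty_or_nonempty n with
  | inl h =>
    have : X.trace • (1 : Matrix n n ℂ) = 0 := Subsingleton.elim _ _
    rw [this]
    exact L.zero_mem
  | inr h =>
    have hn : (Fintype.card n : ℂ) ≠ 0 := Nat.cast_ne_zero.mpr Fintype.card_ne_zero
    -- the trace zero part
    let pr : Matrix n n ℂ →ₗ[ℂ] Matrix n n ℂ := LinearMap.id - (Fintype.card n : ℂ)⁻¹ •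
      (Matrix.traceLinearMap n ℂ ℂ).smulRight (1 : Matrix n n ℂ)
    have hpr : ∀ Y, pr Y = Y - ((Fintype.card n : ℂ)⁻¹ * Y.trace) • (1 : Matrix n n ℂ) := by
      intro Y
      simp [pr, smul_smul]
    have hcom : ∀ Y Z, pr Y * pr Z - pr Z * pr Y = Y * Z - Z * Y := by
      intro Y Z
      rw [hpr, hpr]
      simp only [sub_mul, mul_sub, smul_mul_assoc, mul_smul_comm, one_mul, mul_one, smul_sub, smul_smul]
      rw [mul_comm ((Fintype.card n : ℂ)⁻¹ * Y.trace) ((Fintype.card n : ℂ)⁻¹ * Z.trace)]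
      abel
    have htr0 : ∀ Y Z : Matrix n n ℂ, (Y * Z - Z * Y).trace = 0 := by
      intro Y Z
      rw [trace_sub, trace_mul_comm, sub_self]
    have hpr0 : ∀ Y : Matrix n n ℂ, Y.trace = 0 → pr Y = Y := by
      intro Y hY
      rw [hpr, hY, mul_zero, zero_smul, sub_zero]
    have htrpr : ∀ Y : Matrix n n ℂ, (pr Y).trace = 0 := by
      intro Y
      rw [hpr, trace_sub, trace_smul, trace_one, smul_eq_mul]
      field_simp
      ring
    let tl : Matrix n n ℂ ≃ₐ[ℂ] Module.End ℂ (n → ℂ) := Matrix.toLinAlgEquiv'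
    have htl : ∀ Y v, tl Y v = Y *ᵥ v := fun Y v => rfl
    let L1 : LieSubalgebra ℂ (Module.End ℂ (n → ℂ)) :=
      { (L.map pr).map (tl : Matrix n n ℂ →ₗ[ℂ] Module.End ℂ (n → ℂ)) with
        lie_mem' := by
          rintro _ _ ⟨_, ⟨Y, hY, rfl⟩, rfl⟩ ⟨_, ⟨Z, hZ, rfl⟩, rfl⟩
          refine ⟨Y * Z - Z * Y, ⟨Y * Z - Z * Y, hbr Y hY Z hZ, hpr0 _ (htr0 Y Z)⟩, ?_⟩
          rw [Ring.lie_def]
          change tl _ = tl _ * tl _ - tl _ * tl _
          rw [← map_mul tl, ← map_mul tl, ← map_sub tl, hcom] }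
    have hmem : ∀ z : Module.End ℂ (n → ℂ), z ∈ L1 ↔ ∃ Y ∈ L, tl (pr Y) = z := by
      intro z
      constructor
      · rintro ⟨_, ⟨Y, hY, rfl⟩, rfl⟩
        exact ⟨Y, hY, rfl⟩
      · rintro ⟨Y, hY, rfl⟩
        exact ⟨_, ⟨Y, hY, rfl⟩, rfl⟩
    have hk : LieAlgebra.IsKilling ℂ L1 := by
      apply UN.killing_tr
      · intro W hW
        apply hirr
        intro Y hY w hw
        have h1 := hW (tl (pr Y)) ((hmem _).mpr ⟨Y, hY, rfl⟩) w hw
        rw [htl, hpr, sub_mulVec, smul_mulVec, one_mulVec] at h1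
        have h2 := W.add_mem h1 (W.smul_mem ((Fintype.card n : ℂ)⁻¹ * Y.trace) hw)
        rwa [sub_add_cancel] at h2
      · intro z hz
        obtain ⟨Y, hY, rfl⟩ := (hmem _).mp hz
        have h1 : LinearMap.trace ℂ (n → ℂ) (tl (pr Y)) = (pr Y).trace := Matrix.trace_toLin'_eq _
        rw [h1, htrpr]
    -- the elements of `L1` which come from `L`
    let D : Submodule ℂ L1 := (L.map (tl : Matrix n n ℂ →ₗ[ℂ] Module.End ℂ (n → ℂ))).comap L1.toSubmodule.subtype
    have hD : D = ⊤ := by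
      apply perfect_of_killing
      intro x y
      obtain ⟨Y, hY, hY'⟩ := (hmem _).mp x.2
      obtain ⟨Z, hZ, hZ'⟩ := (hmem _).mp y.2
      refine ⟨Y * Z - Z * Y, hbr Y hY Z hZ, ?_⟩
      change tl _ = ((⁅x, y⁆ : L1) : Module.End ℂ (n → ℂ))
      rw [LieSubalgebra.coe_bracket, Ring.lie_def, ← hY', ← hZ', ← map_mul tl, ← map_mul tl, ← map_sub tl, hcom]
    have h1 : (⟨tl (pr X), (hmem _).mpr ⟨X, hX, rfl⟩⟩ : L1) ∈ D := by rw [hD]; trivial
    obtain ⟨Y, hY, hY'⟩ := h1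
    have h2 : Y = pr X := tl.injective hY'
    rw [h2, hpr] at hY
    have h3 := L.smul_mem (Fintype.card n : ℂ) (L.sub_mem hX hY)
    rw [sub_sub_cancel, smul_smul, ← mul_assoc, mul_inv_cancel₀ hn, one_mul] at h3
    exact h3

end MH
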